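import Pool.Agent.Y58.HT.Stm3

/-!
# HT-NORM: nontrivial normal subgroups of an infinite group with a faithful 4-transitive action meet

The lemma `two_of_four` and the pattern of the proof are those of helper659
(`Pool/Agent/Y659/HT/VS4.lean`).
-/

universe u v

namespace Pool.Agent.Y151.HT

open H361P Pool.Agent.Y58.HT

/-- two-transitivity from four-transitivity on infinite sets -/
lemma two_of_four {G : Type u} {Ω : Type v} [Group G] [MulAction G Ω] [Infinite Ω]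
    (h : KTransitive G Ω 4) {x y z w : Ω} (hxy : x ≠ y) (hzw : z ≠ w) :
    ∃ g : G, g • x = z ∧ g • y = w := by
  classical
  have hext : ∀ p q : Ω, p ≠ q → ∃ f : Fin 4 → Ω, Function.Injective f ∧ f 0 = p ∧ f 1 = q := by
    intro p q hpq
    obtain ⟨r, hr⟩ := Infinite.exists_notMem_finset ({p, q} : Finset Ω)
    obtain ⟨s, hs⟩ := Infinite.exists_notMem_finset ({p, q, r} : Finset Ω)
    simp only [Finset.mem_insert, Finset.mem_singleton, not_or] at hr hs
    refine ⟨![p, q, r, s], ?_, rfl, rfl⟩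
    intro i j hij
    fin_cases i <;> fin_cases j <;> simp at hij ⊢ <;> tauto
  obtain ⟨f, hf, hf0, hf1⟩ := hext x y hxy
  obtain ⟨f', hf', hf0', hf1'⟩ := hext z w hzw
  obtain ⟨g, hg⟩ := h.2 f f' hf hf'
  exact ⟨g, by rw [← hf0, hg, hf0'], by rw [← hf1, hg, hf1']⟩

theorem t_norm : S_NORM.{u} := by
  intro G _ _ hG N₁ N₂ hn1 hn2 hinf
  classical
  obtain ⟨Ω, _, hfaith, h4⟩ := hG
  by_contra hcon0
  rw [not_or] at hcon0
  obtain ⟨hne1, hne2⟩ := hcon0
  have hΩ : Infinite Ω := by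
    by_contra hfin
    rw [not_infinite_iff_finite] at hfin
    have : Finite G := Finite.of_injective (MulAction.toPermHom G Ω) MulAction.toPerm_injective
    exact not_finite G
  -- the two subgroups commute elementwise
  have hcomm : ∀ a ∈ N₁, ∀ b ∈ N₂, a * b = b * a := by
    intro a ha b hb
    have h1 : a * b * a⁻¹ * b⁻¹ ∈ N₁ := by
      have h := N₁.mul_mem ha (hn1.conj_mem _ (N₁.inv_mem ha) b)
      have h2 : a * (b * a⁻¹ * b⁻¹) = a * b * a⁻¹ * b⁻¹ := by group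
      rwa [h2] at h
    have h2 : a * b * a⁻¹ * b⁻¹ ∈ N₂ := N₂.mul_mem (hn2.conj_mem b hb a) (N₂.inv_mem hb)
    have h3 : a * b * a⁻¹ * b⁻¹ ∈ N₁ ⊓ N₂ := ⟨h1, h2⟩
    rw [hinf, Subgroup.mem_bot] at h3
    rw [mul_inv_eq_one] at h3
    exact mul_inv_eq_iff_eq_mul.mp h3
  -- nontrivial normal subgroups are transitive
  have htrans : ∀ N : Subgroup G, N.Normal → N ≠ ⊥ → ∀ y z : Ω, ∃ b ∈ N, b • y = z := by
    intro N hN hne y z
    by_cases hyz : y = z
    · exact ⟨1, N.one_mem, by rw [one_smul, hyz]⟩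
    · obtain ⟨a0, ha0⟩ := Subgroup.ne_bot_iff_exists_ne_one.mp hne
      have ha01 : (a0 : G) ≠ 1 := fun h => ha0 (Subtype.ext h)
      obtain ⟨x, hx⟩ : ∃ x : Ω, (a0 : G) • x ≠ x := by
        by_contra hcon
        push Not at hcon
        exact ha01 (FaithfulSMul.eq_of_smul_eq_smul fun x : Ω => by rw [hcon, one_smul])
      obtain ⟨g, hg1, hg2⟩ := two_of_four h4 (Ne.symm hx) hyz
      refine ⟨g * a0 * g⁻¹, hN.conj_mem _ a0.2 g, ?_⟩
      rw [← hg1, mul_smul, mul_smul, inv_smul_smul, hg2]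
  -- the first one is free
  have hfree : ∀ a ∈ N₁, ∀ b ∈ N₁, ∀ y : Ω, a • y = b • y → a = b := by
    intro a ha b hb y hy
    apply FaithfulSMul.eq_of_smul_eq_smul (α := Ω)
    intro z
    obtain ⟨c, hc, rfl⟩ := htrans N₂ hn2 hne2 y z
    rw [← mul_smul, ← mul_smul, hcomm a ha c hc, hcomm b hb c hc, mul_smul, mul_smul, hy]
  obtain ⟨a0', ha0'⟩ := Subgroup.ne_bot_iff_exists_ne_one.mp hne1
  obtain ⟨a0, ha0⟩ := a0'
  have ha01 : a0 ≠ 1 := fun h => ha0' (Subtype.ext h)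
  obtain ⟨x, hx⟩ : ∃ x : Ω, a0 • x ≠ x := by
    by_contra hcon
    push Not at hcon
    exact ha01 (FaithfulSMul.eq_of_smul_eq_smul fun x : Ω => by rw [hcon, one_smul])
  have hAinf : Infinite N₁ := by
    apply Infinite.of_surjective (fun b : N₁ => (b : G) • x)
    intro z
    obtain ⟨b, hb, hbz⟩ := htrans N₁ hn1 hne1 x z
    exact ⟨⟨b, hb⟩, hbz⟩
  obtain ⟨b, hb⟩ := Infinite.exists_notMem_finset ({1, ⟨a0, ha0⟩, (⟨a0, ha0⟩)⁻¹} : Finset N₁)
  obtain ⟨c, hc⟩ := Infinite.exists_notMem_finset ({1, ⟨a0, ha0⟩, b, ⟨a0, ha0⟩ * b} : Finset N₁)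
  simp only [Finset.mem_insert, Finset.mem_singleton, not_or] at hb hc
  obtain ⟨b, hbA⟩ := b
  obtain ⟨c, hcA⟩ := c
  simp only [Subtype.ext_iff, Subgroup.coe_one, InvMemClass.coe_inv, MulMemClass.coe_mul] at hb hc
  have hinj : ∀ e : G, e ∈ N₁ → e ≠ 1 → e ≠ a0 → e ≠ b →
      Function.Injective (![x, a0 • x, b • x, e • x] : Fin 4 → Ω) := by
    intro e he h1 h2 h3
    have e1 : x ≠ a0 • x := Ne.symm hx
    have e2 : x ≠ b • x := fun h => hb.1 (hfree b hbA 1 N₁.one_mem x (by rw [← h, one_smul]))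
    have e3 : x ≠ e • x := fun h => h1 (hfree e he 1 N₁.one_mem x (by rw [← h, one_smul]))
    have e4 : a0 • x ≠ b • x := fun h => hb.2.1 (hfree a0 ha0 b hbA x h).symm
    have e5 : a0 • x ≠ e • x := fun h => h2 (hfree a0 ha0 e he x h).symm
    have e6 : b • x ≠ e • x := fun h => h3 (hfree b hbA e he x h).symm
    intro i j hij
    fin_cases i <;> fin_cases j <;> simp at hij ⊢ <;> first | exact absurd hij ‹_› | exact absurd hij.symm ‹_›
  have hab1 : a0 * b ≠ 1 := fun h => hb.2.2 (eq_inv_of_mul_eq_one_right h)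
  obtain ⟨g, hg⟩ := h4.2 ![x, a0 • x, b • x, (a0 * b) • x] ![x, a0 • x, b • x, c • x]
    (hinj (a0 * b) (N₁.mul_mem ha0 hbA) hab1 (fun h => hb.1 (by simpa using h))
      (fun h => ha01 (by simpa using h)))
    (hinj c hcA hc.1 hc.2.1 hc.2.2.1)
  have g0 : g • x = x := hg 0
  have g1 : g • a0 • x = a0 • x := hg 1
  have g2 : g • b • x = b • x := hg 2
  have g3 : g • (a0 * b) • x = c • x := hg 3
  have ginv : g⁻¹ • x = x := by rw [inv_smul_eq_iff, g0]
  have c1 : g * a0 * g⁻¹ = a0 := hfree _ (hn1.conj_mem _ ha0 g) _ ha0 x (by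
    rw [mul_smul, mul_smul, ginv, g1])
  have c2 : g * b * g⁻¹ = b := hfree _ (hn1.conj_mem _ hbA g) _ hbA x (by
    rw [mul_smul, mul_smul, ginv, g2])
  have c3 : g * (a0 * b) * g⁻¹ = a0 * b := by
    calc g * (a0 * b) * g⁻¹ = (g * a0 * g⁻¹) * (g * b * g⁻¹) := by group
      _ = a0 * b := by rw [c1, c2]
  have c4 : c = a0 * b := hfree c hcA _ (N₁.mul_mem ha0 hbA) x (by
    rw [← g3]
    conv_rhs => rw [← c3]
    rw [mul_smul (g * (a0 * b)), ginv, mul_smul g (a0 * b)])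
  exact hc.2.2.2 c4

end Pool.Agent.Y151.HT
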